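import Pool.Agent.H95.FiveX.Eval

/-!
# Kernel-friendly evaluation of a certificate for an upper bound
-/

namespace Pool.Agent.H90.FX

open Pool.Agent.H95.FiveX

/-- The check at one index for an upper bound (`tu` holds the maxima over the lifts). Here `m = 5 ^ K` and `m' = m / 5`. -/
noncomputable def checkUp (S m m' : ℕ) (tw tu : BT) (A B0 B1 B2 B3 D : ℕ) (i : ℕ) : Bool :=
  forceN (ent S tw i) fun wi =>
  forceN (Nat.mod (Nat.add (Nat.mul 2 i) 1) m) fun c =>
  forceN (Nat.mod c 5) fun d =>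
  bc (Nat.ble 1 wi) (bc (Nat.ble wi (ent S tu (Nat.mod i m')))
    (Nat.ble
      (Nat.add (Nat.mul A (ent S tw (Nat.mod (Nat.add (Nat.mul 16 i) 9) m)))
        (bc (Nat.beq d 0) B0
          (bc (Nat.beq d 1) (Nat.mul B3 (ent S tu (Nat.div (Nat.mod (Nat.mul 8 c) m) 5)))
            (bc (Nat.beq d 2) (Nat.mul B2 (ent S tu (Nat.div (Nat.mod (Nat.mul 4 c) m) 5)))
              (bc (Nat.beq d 3) (Nat.mul B0 (ent S tu (Nat.div (Nat.mod c m) 5)))
                (Nat.mul B1 (ent S tu (Nat.div (Nat.mod (Nat.mul 2 c) m) 5))))))))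
      (Nat.mul D wi))
    false) false

end Pool.Agent.H90.FX
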