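import Pool.Agent.H90.FX.Tree
import Pool.Agent.H90.FX.Eval
import Pool.Agent.H95.FiveX.Check

/-!
# Exponential bounds for the weighted count from residue certificates
-/

namespace Pool.Agent.H90.FX

open Pool.Agent.H95.FiveX (Cert sideTerm BT ent forceN_eq bc_eq bc_false nat_mod_eq nat_add_eq nat_mul_eq nat_div_eq)

/-- The contribution of the second child in a certificate for an upper bound. -/
def sideUp (m : ℕ) (wm : ℕ → ℕ) (B0 B1 B2 B3 : ℕ) (r : ℕ) : ℕ :=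
  let c := ((2 * r - 1) / 5) % m
  if c % 5 = 0 then B0 else if c % 5 = 1 then B3 * wm (8 * c % m)
    else if c % 5 = 2 then B2 * wm (4 * c % m) else if c % 5 = 3 then B0 * wm (c % m)
    else B1 * wm (2 * c % m)

/-- A residue certificate for an upper bound, modulo `5 ^ (K + 1)`. -/
structure UCert (K : ℕ) (w wm : ℕ → ℕ) (A B0 B1 B2 B3 D Wmax : ℕ) : Prop where
  hpos : ∀ r, r < 5 ^ (K + 1) → r % 5 = 3 → 1 ≤ w r ∧ w r ≤ Wmax
  hwm : ∀ r, r < 5 ^ (K + 1) → r % 5 = 3 → w r ≤ wm (r % 5 ^ K)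
  hineq : ∀ r, r < 5 ^ (K + 1) → r % 5 = 3 →
    A * w (16 * r % 5 ^ (K + 1)) + sideUp (5 ^ K) wm B0 B1 B2 B3 r ≤ D * w r

theorem ucert_of_chk {K : ℕ} (hK : 1 ≤ K) {S m m' : ℕ} (hm : m = 5 ^ K) (hm' : m' = 5 ^ (K - 1))
    {tw tu : BT} {A B0 B1 B2 B3 D : ℕ}
    (hall : ∀ i, i < 5 ^ K → checkUp S m m' tw tu A B0 B1 B2 B3 D i = true) :
    UCert K (fun r => ent S tw (r / 5)) (fun c => ent S tu (c / 5)) A B0 B1 B2 B3 D 65535 := by
  subst hm hm'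
  have hmm' : 5 ^ K = 5 * 5 ^ (K - 1) := by
    conv_lhs => rw [show K = (K - 1) + 1 by omega, pow_succ]
    ring
  have hM : 5 ^ (K + 1) = 5 * 5 ^ K := by rw [pow_succ]; ring
  have main : ∀ r, r < 5 ^ (K + 1) → r % 5 = 3 →
      1 ≤ ent S tw (r / 5) ∧ ent S tw (r / 5) ≤ ent S tu (r % 5 ^ K / 5) ∧
      A * ent S tw (16 * r % 5 ^ (K + 1) / 5) +
        sideUp (5 ^ K) (fun c => ent S tu (c / 5)) B0 B1 B2 B3 r ≤ D * ent S tw (r / 5) := by
    intro r hr h3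
    set i := r / 5 with hi
    have hri : r = 5 * i + 3 := by omega
    have hiK : i < 5 ^ K := by
      rw [hi, Nat.div_lt_iff_lt_mul (by norm_num)]
      linarith
    have hc := hall i hiK
    unfold checkUp at hc
    rw [forceN_eq, forceN_eq, forceN_eq] at hc
    obtain ⟨c1, hc⟩ := bc_false hc
    obtain ⟨c2, c3⟩ := bc_false hc
    rw [Nat.ble_eq] at c1 c2 c3
    have e1 : r % 5 ^ K / 5 = i % 5 ^ (K - 1) := by
      rw [hmm', Nat.mod_mul_right_div_self]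
    have e2 : 16 * r % 5 ^ (K + 1) / 5 = (16 * i + 9) % 5 ^ K := by
      rw [hM, Nat.mod_mul_right_div_self]
      congr 1
      omega
    have e3 : (2 * r - 1) / 5 = 2 * i + 1 := by omega
    refine ⟨c1, ?_, ?_⟩
    · rw [e1]; exact c2
    · rw [e2]
      refine le_trans (le_of_eq ?_) c3
      simp only [nat_mod_eq, nat_add_eq, nat_mul_eq, nat_div_eq, bc_eq, Nat.beq_eq, sideUp, e3]
  refine ⟨?_, ?_, ?_⟩
  · intro r hr h3
    refine ⟨(main r hr h3).1, ?_⟩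
    have : ent S tw (r / 5) < 65536 := Nat.mod_lt _ (by norm_num)
    exact Nat.le_of_lt_succ this
  · intro r hr h3
    exact (main r hr h3).2.1
  · intro r hr h3
    exact (main r hr h3).2.2

lemma child_mod {K n : ℕ} (hn : n % 5 = 3) :
    ((2 * (n % 5 ^ (K + 1)) - 1) / 5) % 5 ^ K = ((2 * n - 1) / 5) % 5 ^ K := by
  have hM : 5 ^ (K + 1) = 5 * 5 ^ K := by rw [pow_succ]; ring
  have hdvd : 5 ∣ 5 ^ (K + 1) := dvd_pow_self 5 (by omega)
  have hr5 : n % 5 ^ (K + 1) % 5 = 3 := by rw [Nat.mod_mod_of_dvd _ hdvd]; exact hn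
  have hnr : n = n % 5 ^ (K + 1) + 5 ^ (K + 1) * (n / 5 ^ (K + 1)) := (Nat.mod_add_div _ _).symm
  set r := n % 5 ^ (K + 1) with hr
  set q := n / 5 ^ (K + 1) with hq
  have h1 : (2 * n - 1) / 5 = (2 * r - 1) / 5 + 5 ^ K * (2 * q) := by
    have h2 : 2 * n = 2 * r + 5 * (5 ^ K * (2 * q)) := by
      rw [hnr, hM]; ring
    omega
  rw [h1, Nat.add_mul_mod_self_left]

lemma mul_mod_mod {K t z : ℕ} : t * (z % 5 ^ K) % 5 ^ K = (t * z % 5 ^ (K + 1)) % 5 ^ K := by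
  rw [Nat.mod_mod_of_dvd _ (pow_dvd_pow 5 (by omega)), Nat.mul_mod t (z % 5 ^ K), Nat.mod_mod,
    ← Nat.mul_mod]

/-- **Upper bound** for the weighted count. -/
theorem upper_three {K : ℕ} (hK : 1 ≤ K) {w wm : ℕ → ℕ} {A B0 B1 B2 B3 D Wmax : ℕ} (hD : 0 < D)
    (C : UCert K w wm A B0 B1 B2 B3 D Wmax) {E L : ℝ} (hE : 0 ≤ E) (hL : 1 ≤ L)
    (hA : (D : ℝ) ≤ A * L ^ 4) (hB0 : D * E ≤ B0 * L) (hB1 : D * E ≤ B1 * L ^ 2)
    (hB2 : D * E ≤ B2 * L ^ 3) (hB3 : D * E ≤ B3 * L ^ 4) (k : ℕ) :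
    ∀ y : ℕ, y % 5 = 3 → W E k y ≤ (1 + E) ^ 3 * w (y % 5 ^ (K + 1)) * L ^ k := by
  have hdvd : 5 ∣ 5 ^ K := dvd_pow_self 5 (by omega)
  have hdvd2 : 5 ∣ 5 ^ (K + 1) := dvd_pow_self 5 (by omega)
  have hMpos : 0 < 5 ^ (K + 1) := by positivity
  have hDR : (0 : ℝ) < D := by exact_mod_cast hD
  have hL0 : 0 < L := by linarith
  have hC0 : 1 ≤ (1 + E) ^ 3 := one_le_pow₀ (by linarith)
  have hw1 : ∀ y : ℕ, y % 5 = 3 → (1 : ℝ) ≤ w (y % 5 ^ (K + 1)) := by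
    intro y hy
    exact_mod_cast (C.hpos _ (Nat.mod_lt _ hMpos) (by rw [Nat.mod_mod_of_dvd _ hdvd2]; exact hy)).1
  induction k using Nat.strong_induction_on with
  | _ k ih =>
  intro y hy
  rcases lt_or_ge k 4 with hk | hk
  · have h1 := W_le_pow hE k y
    have h2 : (1 + E) ^ k ≤ (1 + E) ^ 3 := pow_le_pow_right₀ (by linarith) (by omega)
    have h3 : 1 ≤ L ^ k := one_le_pow₀ hL
    calc W E k y ≤ (1 + E) ^ 3 := h1.trans h2
      _ = (1 + E) ^ 3 * 1 * 1 := by ring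
      _ ≤ (1 + E) ^ 3 * w (y % 5 ^ (K + 1)) * L ^ k := by
        have := hw1 y hy
        gcongr
  · obtain ⟨j, rfl⟩ : ∃ j, k = j + 4 := ⟨k - 4, by omega⟩
    set z := (2 * y - 1) / 5 with hz
    set c := z % 5 ^ K with hc
    have hc5 : c % 5 = z % 5 := Nat.mod_mod_of_dvd _ hdvd
    have h16 : (D : ℝ) * W E j (16 * y) ≤
        (1 + E) ^ 3 * L ^ (j + 4) * (A * w (16 * (y % 5 ^ (K + 1)) % 5 ^ (K + 1))) := by
      have e1 : 16 * y % 5 ^ (K + 1) = 16 * (y % 5 ^ (K + 1)) % 5 ^ (K + 1) := by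
        rw [Nat.mul_mod, Nat.mul_mod 16 (y % 5 ^ (K + 1)), Nat.mod_mod]
      have h1 := ih j (by omega) (16 * y) (by omega)
      rw [e1] at h1
      have h0 : (0 : ℝ) ≤ W E j (16 * y) := W_nonneg hE _ _
      calc (D : ℝ) * W E j (16 * y) ≤ (A * L ^ 4) * ((1 + E) ^ 3 *
            w (16 * (y % 5 ^ (K + 1)) % 5 ^ (K + 1)) * L ^ j) := by gcongr
        _ = _ := by ring
    -- the general step for the second child
    have hmain : ∀ (t B i : ℕ), i ≤ 3 → (D * E ≤ B * L ^ (1 + i)) → (t * z) % 5 = 3 →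
        (D : ℝ) * (E * W E (j + (3 - i)) (t * z)) ≤
          (1 + E) ^ 3 * L ^ (j + 4) * ((B * wm (t * c % 5 ^ K) : ℕ) : ℝ) := by
      intro t B i hi hB ht
      have h1 := ih (j + (3 - i)) (by omega) (t * z) ht
      have h2 : (w (t * z % 5 ^ (K + 1)) : ℝ) ≤ wm (t * c % 5 ^ K) := by
        rw [hc, mul_mod_mod]
        exact_mod_cast C.hwm _ (Nat.mod_lt _ hMpos) (by rw [Nat.mod_mod_of_dvd _ hdvd2]; exact ht)
      have h0 : (0 : ℝ) ≤ W E (j + (3 - i)) (t * z) := W_nonneg hE _ _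
      have e : L ^ (1 + i) * L ^ (j + (3 - i)) = L ^ (j + 4) := by
        rw [← pow_add]; congr 1; omega
      calc (D : ℝ) * (E * W E (j + (3 - i)) (t * z))
          = (D * E) * W E (j + (3 - i)) (t * z) := by ring
        _ ≤ (B * L ^ (1 + i)) * ((1 + E) ^ 3 * w (t * z % 5 ^ (K + 1)) * L ^ (j + (3 - i))) := by
          gcongr
        _ ≤ (B * L ^ (1 + i)) * ((1 + E) ^ 3 * wm (t * c % 5 ^ K) * L ^ (j + (3 - i))) := by
          gcongr
        _ = (1 + E) ^ 3 * (L ^ (1 + i) * L ^ (j + (3 - i))) * (B * wm (t * c % 5 ^ K)) := by ring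
        _ = _ := by rw [e]; push_cast; ring
    have hside : (D : ℝ) * (E * (
        if z % 5 = 0 then 1
        else if z % 5 = 1 then W E j (8 * z)
        else if z % 5 = 2 then W E (j + 1) (4 * z)
        else if z % 5 = 3 then W E (j + 3) z
        else W E (j + 2) (2 * z))) ≤
        (1 + E) ^ 3 * L ^ (j + 4) * (sideUp (5 ^ K) wm B0 B1 B2 B3 (y % 5 ^ (K + 1)) : ℝ) := by
      unfold sideUp
      simp only [child_mod hy]
      rw [← hz, ← hc, hc5]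
      split_ifs with c0 c1 c2 c3
      · have h3 : 1 ≤ L ^ (j + 3) := one_le_pow₀ hL
        calc (D : ℝ) * (E * 1) = 1 * (D * E) := by ring
          _ ≤ 1 * (B0 * L) := by gcongr
          _ = 1 * (L * 1 * B0) := by ring
          _ ≤ (1 + E) ^ 3 * (L * L ^ (j + 3) * B0) := by gcongr
          _ = _ := by ring
      · exact hmain 8 B3 3 le_rfl hB3 (by omega)
      · exact hmain 4 B2 2 (by norm_num) hB2 (by omega)
      · have := hmain 1 B0 0 (by norm_num) (by simpa using hB0) (by omega)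
        simpa using this
      · exact hmain 2 B1 1 (by norm_num) hB1 (by omega)
    have hin := C.hineq (y % 5 ^ (K + 1)) (Nat.mod_lt _ hMpos)
      (by rw [Nat.mod_mod_of_dvd _ hdvd2]; exact hy)
    have hinR : (A : ℝ) * w (16 * (y % 5 ^ (K + 1)) % 5 ^ (K + 1)) +
        sideUp (5 ^ K) wm B0 B1 B2 B3 (y % 5 ^ (K + 1)) ≤ D * w (y % 5 ^ (K + 1)) := by
      exact_mod_cast hin
    have hfin : (D : ℝ) * W E (j + 4) y ≤
        D * ((1 + E) ^ 3 * w (y % 5 ^ (K + 1)) * L ^ (j + 4)) := by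
      rw [W_four hy, mul_add, ← hz]
      calc _ ≤ (1 + E) ^ 3 * L ^ (j + 4) * (A * w (16 * (y % 5 ^ (K + 1)) % 5 ^ (K + 1))) +
            (1 + E) ^ 3 * L ^ (j + 4) *
              (sideUp (5 ^ K) wm B0 B1 B2 B3 (y % 5 ^ (K + 1)) : ℝ) := add_le_add h16 hside
        _ = (1 + E) ^ 3 * L ^ (j + 4) * (A * w (16 * (y % 5 ^ (K + 1)) % 5 ^ (K + 1)) +
              sideUp (5 ^ K) wm B0 B1 B2 B3 (y % 5 ^ (K + 1))) := by ring
        _ ≤ (1 + E) ^ 3 * L ^ (j + 4) * (D * w (y % 5 ^ (K + 1))) := by gcongr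
        _ = _ := by ring
    exact le_of_mul_le_mul_left hfin hDR

theorem upper_all {K : ℕ} (hK : 1 ≤ K) {w wm : ℕ → ℕ} {A B0 B1 B2 B3 D Wmax : ℕ} (hD : 0 < D)
    (C : UCert K w wm A B0 B1 B2 B3 D Wmax) {E L : ℝ} (hE : 0 ≤ E) (hL : 1 ≤ L)
    (hA : (D : ℝ) ≤ A * L ^ 4) (hB0 : D * E ≤ B0 * L) (hB1 : D * E ≤ B1 * L ^ 2)
    (hB2 : D * E ≤ B2 * L ^ 3) (hB3 : D * E ≤ B3 * L ^ 4) :
    ∀ k y : ℕ, W E k y ≤ (1 + E) ^ 3 * Wmax * L ^ k := by
  have hMpos : 0 < 5 ^ (K + 1) := by positivity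
  have hdvd2 : 5 ∣ 5 ^ (K + 1) := dvd_pow_self 5 (by omega)
  have hWm : ∀ y : ℕ, y % 5 = 3 → (w (y % 5 ^ (K + 1)) : ℝ) ≤ Wmax := by
    intro y hy
    exact_mod_cast (C.hpos _ (Nat.mod_lt _ hMpos) (by rw [Nat.mod_mod_of_dvd _ hdvd2]; exact hy)).2
  have hW1 : (1 : ℝ) ≤ Wmax := by
    have h := C.hpos 3 (by
      have : 5 ^ 1 ≤ 5 ^ (K + 1) := Nat.pow_le_pow_right (by norm_num) (by omega)
      omega) (by norm_num)
    have : 1 ≤ Wmax := h.1.trans h.2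
    exact_mod_cast this
  have hL0 : 0 < L := by linarith
  have h3 : ∀ k y : ℕ, y % 5 = 3 → W E k y ≤ (1 + E) ^ 3 * Wmax * L ^ k := by
    intro k y hy
    refine (upper_three hK hD C hE hL hA hB0 hB1 hB2 hB3 k y hy).trans ?_
    have := hWm y hy
    gcongr
  have hone : ∀ k : ℕ, (1 : ℝ) ≤ (1 + E) ^ 3 * Wmax * L ^ k := by
    intro k
    have h1 : 1 ≤ (1 + E) ^ 3 := one_le_pow₀ (by linarith)
    have h2 : 1 ≤ L ^ k := one_le_pow₀ hL
    calc (1 : ℝ) = 1 * 1 * 1 := by norm_num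
      _ ≤ _ := by gcongr
  have step : ∀ r : ℕ, r ≠ 3 → (∀ k y : ℕ, (y % 5 = 2 * r % 5) → W E k y ≤ (1 + E) ^ 3 * Wmax * L ^ k) →
      ∀ k y : ℕ, y % 5 = r → W E k y ≤ (1 + E) ^ 3 * Wmax * L ^ k := by
    intro r hr H k y hy
    cases k with
    | zero => simpa [W] using hone 0
    | succ k =>
      rw [W_step (by omega)]
      refine (H k (2 * y) (by omega)).trans ?_
      have h2 : L ^ k ≤ L ^ (k + 1) := pow_le_pow_right₀ hL (by omega)
      have : (0 : ℝ) ≤ (1 + E) ^ 3 * Wmax := by positivity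
      gcongr
  have h4 := step 4 (by norm_num) (by simpa using h3)
  have h2 := step 2 (by norm_num) (by simpa using h4)
  have h1 := step 1 (by norm_num) (by simpa using h2)
  intro k y
  have : y % 5 = 0 ∨ y % 5 = 1 ∨ y % 5 = 2 ∨ y % 5 = 3 ∨ y % 5 = 4 := by omega
  rcases this with h | h | h | h | h
  · rw [W_five k h]; exact hone k
  · exact h1 k y h
  · exact h2 k y h
  · exact h3 k y h
  · exact h4 k y h

/-- **Lower bound** for the count. -/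
theorem lower_three {K : ℕ} (hK : 1 ≤ K) {w wm : ℕ → ℕ} {A B0 B1 B2 B3 D Wmax : ℕ} (hD : 0 < D)
    (C : Cert K w wm A B0 B1 B2 B3 D Wmax) {L c0 : ℝ} (hL : 1 ≤ L) (hc0 : 0 ≤ c0)
    (hcW : c0 * Wmax * L ^ 3 ≤ 1)
    (hA : A * L ^ 4 ≤ (D : ℝ)) (hB0 : B0 * L ≤ (D : ℝ)) (hB1 : B1 * L ^ 2 ≤ (D : ℝ))
    (hB2 : B2 * L ^ 3 ≤ (D : ℝ)) (hB3 : B3 * L ^ 4 ≤ (D : ℝ)) (k : ℕ) :
    ∀ y : ℕ, y % 5 = 3 → c0 * w (y % 5 ^ (K + 1)) * L ^ k ≤ W 1 k y := by
  have hdvd : 5 ∣ 5 ^ K := dvd_pow_self 5 (by omega)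
  have hdvd2 : 5 ∣ 5 ^ (K + 1) := dvd_pow_self 5 (by omega)
  have hMpos : 0 < 5 ^ (K + 1) := by positivity
  have hDR : (0 : ℝ) < D := by exact_mod_cast hD
  have hL0 : 0 < L := by linarith
  have hwW : ∀ y : ℕ, y % 5 = 3 → (w (y % 5 ^ (K + 1)) : ℝ) ≤ Wmax := by
    intro y hy
    exact_mod_cast (C.hpos _ (Nat.mod_lt _ hMpos) (by rw [Nat.mod_mod_of_dvd _ hdvd2]; exact hy)).2
  induction k using Nat.strong_induction_on with
  | _ k ih =>
  intro y hy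
  rcases lt_or_ge k 4 with hk | hk
  · have h1 := one_le_W (E := 1) (by norm_num) k y
    have h2 : L ^ k ≤ L ^ 3 := pow_le_pow_right₀ hL (by omega)
    have h3 := hwW y hy
    calc c0 * w (y % 5 ^ (K + 1)) * L ^ k ≤ c0 * Wmax * L ^ 3 := by gcongr
      _ ≤ 1 := hcW
      _ ≤ _ := h1
  · obtain ⟨j, rfl⟩ : ∃ j, k = j + 4 := ⟨k - 4, by omega⟩
    set z := (2 * y - 1) / 5 with hz
    set c := z % 5 ^ K with hc
    have hc5 : c % 5 = z % 5 := Nat.mod_mod_of_dvd _ hdvd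
    have h16 : c0 * L ^ (j + 4) * (A * w (16 * (y % 5 ^ (K + 1)) % 5 ^ (K + 1))) ≤
        (D : ℝ) * W 1 j (16 * y) := by
      have e1 : 16 * y % 5 ^ (K + 1) = 16 * (y % 5 ^ (K + 1)) % 5 ^ (K + 1) := by
        rw [Nat.mul_mod, Nat.mul_mod 16 (y % 5 ^ (K + 1)), Nat.mod_mod]
      have h1 := ih j (by omega) (16 * y) (by omega)
      rw [e1] at h1
      calc c0 * L ^ (j + 4) * (A * w (16 * (y % 5 ^ (K + 1)) % 5 ^ (K + 1)))
          = (A * L ^ 4) * (c0 * w (16 * (y % 5 ^ (K + 1)) % 5 ^ (K + 1)) * L ^ j) := by ring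
        _ ≤ D * W 1 j (16 * y) := by gcongr
    have hmain : ∀ (t B i : ℕ), i ≤ 3 → (B * L ^ (1 + i) ≤ (D : ℝ)) → (t * z) % 5 = 3 →
        c0 * L ^ (j + 4) * ((B * wm (t * c % 5 ^ K) : ℕ) : ℝ) ≤
        (D : ℝ) * (1 * W 1 (j + (3 - i)) (t * z)) := by
      intro t B i hi hB ht
      have h1 := ih (j + (3 - i)) (by omega) (t * z) ht
      have h2 : (wm (t * c % 5 ^ K) : ℝ) ≤ w (t * z % 5 ^ (K + 1)) := by
        rw [hc, mul_mod_mod]
        exact_mod_cast C.hwm _ (Nat.mod_lt _ hMpos) (by rw [Nat.mod_mod_of_dvd _ hdvd2]; exact ht)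
      have e : L ^ (1 + i) * L ^ (j + (3 - i)) = L ^ (j + 4) := by
        rw [← pow_add]; congr 1; omega
      calc c0 * L ^ (j + 4) * ((B * wm (t * c % 5 ^ K) : ℕ) : ℝ)
          = (B * L ^ (1 + i)) * (c0 * wm (t * c % 5 ^ K) * L ^ (j + (3 - i))) := by
            rw [← e]; push_cast; ring
        _ ≤ (B * L ^ (1 + i)) * (c0 * w (t * z % 5 ^ (K + 1)) * L ^ (j + (3 - i))) := by
          gcongr
        _ ≤ D * W 1 (j + (3 - i)) (t * z) := by gcongr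
        _ = _ := by ring
    have hside : c0 * L ^ (j + 4) * (sideTerm (5 ^ K) wm B0 B1 B2 B3 (y % 5 ^ (K + 1)) : ℝ) ≤
        (D : ℝ) * (1 * (
        if z % 5 = 0 then 1
        else if z % 5 = 1 then W 1 j (8 * z)
        else if z % 5 = 2 then W 1 (j + 1) (4 * z)
        else if z % 5 = 3 then W 1 (j + 3) z
        else W 1 (j + 2) (2 * z))) := by
      unfold sideTerm
      simp only [child_mod hy]
      rw [← hz, ← hc, hc5]
      split_ifs with c0 c1 c2 c3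
      · simp
      · exact hmain 8 B3 3 le_rfl hB3 (by omega)
      · exact hmain 4 B2 2 (by norm_num) hB2 (by omega)
      · have := hmain 1 B0 0 (by norm_num) (by simpa using hB0) (by omega)
        simpa using this
      · exact hmain 2 B1 1 (by norm_num) hB1 (by omega)
    have hin := C.hineq (y % 5 ^ (K + 1)) (Nat.mod_lt _ hMpos)
      (by rw [Nat.mod_mod_of_dvd _ hdvd2]; exact hy)
    have hinR : (D : ℝ) * w (y % 5 ^ (K + 1)) ≤
        A * w (16 * (y % 5 ^ (K + 1)) % 5 ^ (K + 1)) +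
        sideTerm (5 ^ K) wm B0 B1 B2 B3 (y % 5 ^ (K + 1)) := by
      exact_mod_cast hin
    have hfin : (D : ℝ) * (c0 * w (y % 5 ^ (K + 1)) * L ^ (j + 4)) ≤ D * W 1 (j + 4) y := by
      rw [W_four hy, mul_add, ← hz]
      calc (D : ℝ) * (c0 * w (y % 5 ^ (K + 1)) * L ^ (j + 4))
          = c0 * L ^ (j + 4) * (D * w (y % 5 ^ (K + 1))) := by ring
        _ ≤ c0 * L ^ (j + 4) * (A * w (16 * (y % 5 ^ (K + 1)) % 5 ^ (K + 1)) +
              sideTerm (5 ^ K) wm B0 B1 B2 B3 (y % 5 ^ (K + 1))) := by gcongr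
        _ = c0 * L ^ (j + 4) * (A * w (16 * (y % 5 ^ (K + 1)) % 5 ^ (K + 1))) +
            c0 * L ^ (j + 4) *
              (sideTerm (5 ^ K) wm B0 B1 B2 B3 (y % 5 ^ (K + 1)) : ℝ) := by ring
        _ ≤ _ := add_le_add h16 hside
    exact le_of_mul_le_mul_left hfin hDR

theorem lower_all {K : ℕ} (hK : 1 ≤ K) {w wm : ℕ → ℕ} {A B0 B1 B2 B3 D Wmax : ℕ} (hD : 0 < D)
    (C : Cert K w wm A B0 B1 B2 B3 D Wmax) {L c0 : ℝ} (hL : 1 ≤ L) (hc0 : 0 ≤ c0)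
    (hcW : c0 * Wmax * L ^ 3 ≤ 1)
    (hA : A * L ^ 4 ≤ (D : ℝ)) (hB0 : B0 * L ≤ (D : ℝ)) (hB1 : B1 * L ^ 2 ≤ (D : ℝ))
    (hB2 : B2 * L ^ 3 ≤ (D : ℝ)) (hB3 : B3 * L ^ 4 ≤ (D : ℝ)) :
    ∀ k y : ℕ, y % 5 ≠ 0 → c0 / L ^ 3 * L ^ k ≤ W 1 k y := by
  have hMpos : 0 < 5 ^ (K + 1) := by positivity
  have hdvd2 : 5 ∣ 5 ^ (K + 1) := dvd_pow_self 5 (by omega)
  have hL0 : 0 < L := by linarith
  have hw1 : ∀ y : ℕ, y % 5 = 3 → (1 : ℝ) ≤ w (y % 5 ^ (K + 1)) := by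
    intro y hy
    exact_mod_cast (C.hpos _ (Nat.mod_lt _ hMpos) (by rw [Nat.mod_mod_of_dvd _ hdvd2]; exact hy)).1
  have hWmax : (1 : ℝ) ≤ Wmax := by
    have h := C.hpos 3 (by
      have : 5 ^ 1 ≤ 5 ^ (K + 1) := Nat.pow_le_pow_right (by norm_num) (by omega)
      omega) (by norm_num)
    have : 1 ≤ Wmax := (Nat.succ_le_of_lt h.1).trans h.2
    exact_mod_cast this
  have hL3 : 1 ≤ L ^ 3 := one_le_pow₀ hL
  have hc1 : c0 ≤ 1 := by
    have : c0 * 1 * 1 ≤ c0 * Wmax * L ^ 3 := by gcongr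
    linarith
  have h3 : ∀ k y : ℕ, y % 5 = 3 → c0 * L ^ k ≤ W 1 k y := by
    intro k y hy
    refine le_trans ?_ (lower_three hK hD C hL hc0 hcW hA hB0 hB1 hB2 hB3 k y hy)
    have := hw1 y hy
    calc c0 * L ^ k = c0 * 1 * L ^ k := by ring
      _ ≤ _ := by gcongr
  have step : ∀ (r : ℕ) (a : ℝ), 0 ≤ a → a ≤ 1 → r ≠ 3 →
      (∀ k y : ℕ, (y % 5 = 2 * r % 5) → a * L ^ k ≤ W 1 k y) →
      ∀ k y : ℕ, y % 5 = r → a / L * L ^ k ≤ W 1 k y := by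
    intro r a ha ha1 hr H k y hy
    cases k with
    | zero =>
      simp only [pow_zero, mul_one, W]
      rw [div_le_one hL0]
      linarith
    | succ k =>
      rw [W_step (by omega)]
      refine le_trans (le_of_eq ?_) (H k (2 * y) (by omega))
      rw [pow_succ]
      field_simp
  have hdiv : ∀ a : ℝ, 0 ≤ a → a ≤ 1 → 0 ≤ a / L ∧ a / L ≤ 1 := by
    intro a ha ha1
    refine ⟨by positivity, ?_⟩
    rw [div_le_one hL0]
    linarith
  have d1 := hdiv c0 hc0 hc1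
  have d2 := hdiv _ d1.1 d1.2
  have h4 := step 4 c0 hc0 hc1 (by norm_num) (by simpa using h3)
  have h2 := step 2 (c0 / L) d1.1 d1.2 (by norm_num) (by simpa using h4)
  have h1 := step 1 (c0 / L / L) d2.1 d2.2 (by norm_num) (by simpa using h2)
  have e1 : c0 / L / L / L = c0 / L ^ 3 := by field_simp
  have l1 : c0 / L ^ 3 ≤ c0 / L / L := by
    rw [← e1]
    exact div_le_self d2.1 hL
  have l2 : c0 / L / L ≤ c0 / L := div_le_self d1.1 hL
  have l3 : c0 / L ≤ c0 := div_le_self hc0 hL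
  intro k y hy
  have hLk : 0 ≤ L ^ k := by positivity
  have : y % 5 = 1 ∨ y % 5 = 2 ∨ y % 5 = 3 ∨ y % 5 = 4 := by omega
  rcases this with h | h | h | h
  · rw [← e1]; exact h1 k y h
  · exact (mul_le_mul_of_nonneg_right l1 hLk).trans (h2 k y h)
  · exact (mul_le_mul_of_nonneg_right (l1.trans (l2.trans l3)) hLk).trans (h3 k y h)
  · exact (mul_le_mul_of_nonneg_right (l1.trans l2) hLk).trans (h4 k y h)

end Pool.Agent.H90.FX
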