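import Pool.Agent.H90.FX.MainU
import Pool.Agent.H90.FX.TLAll

/-!
# Growth of the tree of the `5x+1` map
-/

namespace Pool.Agent.H90.FX

theorem tree_lower : ∃ c : ℝ, 0 < c ∧ ∀ k y : ℕ, y % 5 ≠ 0 → c * 1.1972 ^ k ≤ W 1 k y := by
  have C := Pool.Agent.H95.FiveX.cert_of_chk (K := 8) (by norm_num) (by norm_num) (by norm_num) TL.all
  exact ⟨_, by norm_num, lower_all (K := 8) (by norm_num) (by norm_num) C (L := 1.1972)
    (c0 := 1 / 200000) (by norm_num) (by norm_num) (by norm_num) (by norm_num) (by norm_num) (by norm_num)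
    (by norm_num) (by norm_num)⟩

theorem growth : ∃ c C : ℝ, 0 < c ∧ ∀ y : ℕ, ¬ 5 ∣ y → ∀ k : ℕ,
    c * 1.1972 ^ k ≤ ({n : ℕ | T5^[k] n = y}.ncard : ℝ) ∧
    ({n : ℕ | T5^[k] n = y}.ncard : ℝ) ≤ C * 1.2053 ^ k := by
  obtain ⟨C, hC, hU⟩ := tree_upper
  obtain ⟨c, hc, hL⟩ := tree_lower
  refine ⟨c, C, hc, ?_⟩
  intro y hy k
  rw [ncard_level]
  exact ⟨hL k y (by omega), hU k y⟩

end Pool.Agent.H90.FX
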