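import Pool.Agent.H90.FX.TV

namespace Pool.Agent.H90.FX.TV

open Pool.Agent.H95.FiveX

theorem chk_64 : chk2 F 5 64 = true := by decide +kernel
theorem chk_65 : chk2 F 5 65 = true := by decide +kernel
theorem chk_66 : chk2 F 5 66 = true := by decide +kernel
theorem chk_67 : chk2 F 5 67 = true := by decide +kernel
theorem chk_68 : chk2 F 5 68 = true := by decide +kernel
theorem chk_69 : chk2 F 5 69 = true := by decide +kernel
theorem chk_70 : chk2 F 5 70 = true := by decide +kernel
theorem chk_71 : chk2 F 5 71 = true := by decide +kernel
theorem chk_72 : chk2 F 5 72 = true := by decide +kernel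
theorem chk_73 : chk2 F 5 73 = true := by decide +kernel
theorem chk_74 : chk2 F 5 74 = true := by decide +kernel
theorem chk_75 : chk2 F 5 75 = true := by decide +kernel
theorem chk_76 : chk2 F 5 76 = true := by decide +kernel
theorem chk_77 : chk2 F 5 77 = true := by decide +kernel
theorem chk_78 : chk2 F 5 78 = true := by decide +kernel
theorem chk_79 : chk2 F 5 79 = true := by decide +kernel

end Pool.Agent.H90.FX.TV
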