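import Pool.Agent.H90.FX.TV

namespace Pool.Agent.H90.FX.TV

open Pool.Agent.H95.FiveX

theorem chk_80 : chk2 F 5 80 = true := by decide +kernel
theorem chk_81 : chk2 F 5 81 = true := by decide +kernel
theorem chk_82 : chk2 F 5 82 = true := by decide +kernel
theorem chk_83 : chk2 F 5 83 = true := by decide +kernel
theorem chk_84 : chk2 F 5 84 = true := by decide +kernel
theorem chk_85 : chk2 F 5 85 = true := by decide +kernel
theorem chk_86 : chk2 F 5 86 = true := by decide +kernel
theorem chk_87 : chk2 F 5 87 = true := by decide +kernel
theorem chk_88 : chk2 F 5 88 = true := by decide +kernel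
theorem chk_89 : chk2 F 5 89 = true := by decide +kernel
theorem chk_90 : chk2 F 5 90 = true := by decide +kernel
theorem chk_91 : chk2 F 5 91 = true := by decide +kernel
theorem chk_92 : chk2 F 5 92 = true := by decide +kernel
theorem chk_93 : chk2 F 5 93 = true := by decide +kernel
theorem chk_94 : chk2 F 5 94 = true := by decide +kernel
theorem chk_95 : chk2 F 5 95 = true := by decide +kernel

end Pool.Agent.H90.FX.TV
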