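import Pool.Agent.H90.FX.TV

namespace Pool.Agent.H90.FX.TV

open Pool.Agent.H95.FiveX

theorem chk_96 : chk2 F 5 96 = true := by decide +kernel
theorem chk_97 : chk2 F 5 97 = true := by decide +kernel
theorem chk_98 : chk2 F 5 98 = true := by decide +kernel
theorem chk_99 : chk2 F 5 99 = true := by decide +kernel
theorem chk_100 : chk2 F 5 100 = true := by decide +kernel
theorem chk_101 : chk2 F 5 101 = true := by decide +kernel
theorem chk_102 : chk2 F 5 102 = true := by decide +kernel
theorem chk_103 : chk2 F 5 103 = true := by decide +kernel
theorem chk_104 : chk2 F 5 104 = true := by decide +kernel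
theorem chk_105 : chk2 F 5 105 = true := by decide +kernel
theorem chk_106 : chk2 F 5 106 = true := by decide +kernel
theorem chk_107 : chk2 F 5 107 = true := by decide +kernel
theorem chk_108 : chk2 F 5 108 = true := by decide +kernel
theorem chk_109 : chk2 F 5 109 = true := by decide +kernel
theorem chk_110 : chk2 F 5 110 = true := by decide +kernel
theorem chk_111 : chk2 F 5 111 = true := by decide +kernel

end Pool.Agent.H90.FX.TV
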