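import Pool.Agent.H90.FX.Tree

/-!
# Sizes along the orbit, and the time-limited count
-/

namespace Pool.Agent.H90.FX

/-- The number of indices `i < k` with `T5^[i] n < 1000`. -/
def small : ℕ → ℕ → ℕ
  | 0, _ => 0
  | k + 1, n => small k n + (if T5^[k] n < 1000 then 1 else 0)

lemma small_eq (k n : ℕ) : small k n = ((Finset.range k).filter (fun i => T5^[i] n < 1000)).card := by
  induction k with
  | zero => simp [small]
  | succ k ih =>
    rw [small, ih, Finset.range_add_one, Finset.filter_insert]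
    split_ifs with h
    · rw [Finset.card_insert_of_notMem (by simp)]
    · simp

lemma T5_two (a : ℕ) : 2 * T5 a = if a % 2 = 1 then 5 * a + 1 else a := by
  unfold T5
  split_ifs <;> omega

lemma T5_pos {a : ℕ} (h : 1 ≤ a) : 1 ≤ T5 a := by
  unfold T5
  split_ifs <;> omega

lemma iter_pos {n : ℕ} (h : 1 ≤ n) (k : ℕ) : 1 ≤ T5^[k] n := by
  induction k with
  | zero => simpa using h
  | succ k ih => rw [Function.iterate_succ_apply']; exact T5_pos ih

/-- The size of the `k`-th iterate. -/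
lemma size_le {n : ℕ} (hn : 1 ≤ n) (k : ℕ) :
    (2 : ℝ) ^ k * (T5^[k] n : ℕ) ≤ 5 ^ odds k n * n * (6 / 5) ^ small k n * (5001 / 5000) ^ k := by
  induction k with
  | zero => simp [odds, small]
  | succ k ih =>
    rw [Function.iterate_succ_apply']
    set a := T5^[k] n with ha
    have ha1 : 1 ≤ a := iter_pos hn k
    have haR : (1 : ℝ) ≤ a := by exact_mod_cast ha1
    have h2 : (2 : ℝ) * (T5 a : ℕ) = if a % 2 = 1 then 5 * (a : ℝ) + 1 else a := by
      have := T5_two a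
      split_ifs at this ⊢ with h
      · exact_mod_cast this
      · exact_mod_cast this
    have hstep : (2 : ℝ) * (T5 a : ℕ) ≤ 5 ^ (if a % 2 = 1 then 1 else 0 : ℕ) * a *
        (6 / 5) ^ (if a < 1000 then 1 else 0 : ℕ) * (5001 / 5000) := by
      rw [h2]
      by_cases h : a % 2 = 1
      · rw [if_pos h, if_pos h]
        by_cases h' : a < 1000
        · rw [if_pos h', pow_one, pow_one]
          nlinarith
        · rw [if_neg h', pow_one, pow_zero]
          have : (1000 : ℝ) ≤ a := by exact_mod_cast (not_lt.1 h')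
          nlinarith
      · rw [if_neg h, if_neg h]
        by_cases h' : a < 1000
        · rw [if_pos h', pow_one, pow_zero]
          nlinarith
        · rw [if_neg h', pow_zero, pow_zero]
          nlinarith
    have hpos : (0 : ℝ) < a := by linarith
    calc (2 : ℝ) ^ (k + 1) * (T5 a : ℕ) = 2 ^ k * (2 * (T5 a : ℕ)) := by ring
      _ ≤ 2 ^ k * (5 ^ (if a % 2 = 1 then 1 else 0 : ℕ) * a *
        (6 / 5) ^ (if a < 1000 then 1 else 0 : ℕ) * (5001 / 5000)) := by gcongr
      _ = (2 ^ k * a) * (5 ^ (if a % 2 = 1 then 1 else 0 : ℕ) *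
        (6 / 5) ^ (if a < 1000 then 1 else 0 : ℕ) * (5001 / 5000)) := by ring
      _ ≤ (5 ^ odds k n * n * (6 / 5) ^ small k n * (5001 / 5000) ^ k) *
        (5 ^ (if a % 2 = 1 then 1 else 0 : ℕ) *
        (6 / 5) ^ (if a < 1000 then 1 else 0 : ℕ) * (5001 / 5000)) := by gcongr
      _ = _ := by
        rw [odds, small, ← ha, pow_add, pow_add, pow_succ]
        ring

/-- Before the first visit of `y` the iterates are distinct. -/
lemma small_le {n y k : ℕ} (hk : T5^[k] n = y) (hmin : ∀ i < k, T5^[i] n ≠ y) : small k n ≤ 1000 := by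
  rw [small_eq]
  have : ((Finset.range k).filter (fun i => T5^[i] n < 1000)).card ≤ (Finset.range 1000).card := by
    apply Finset.card_le_card_of_injOn (fun i => T5^[i] n)
    · intro i hi
      simp only [Finset.coe_filter, Finset.mem_range, Set.mem_ofPred_eq] at hi
      simpa using hi.2
    · intro i hi j hj hij
      simp only [Finset.coe_filter, Finset.mem_range, Set.mem_ofPred_eq] at hi hj
      have key : ∀ i j : ℕ, i < j → j < k → T5^[i] n = T5^[j] n → False := by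
        intro i j hij hj h
        apply hmin (k - j + i) (by omega)
        rw [Function.iterate_add_apply, h, ← Function.iterate_add_apply, Nat.sub_add_cancel hj.le]
        exact hk
      rcases lt_trichotomy i j with h | h | h
      · exact (key i j h hj.1 hij).elim
      · exact h
      · exact (key j i h hi.1 hij.symm).elim
  simpa using this

/-- The numbers up to `x` whose first visit of `y` is at time `k`. -/
noncomputable def H (k y : ℕ) (x : ℝ) : Finset ℕ :=
  by classical exact (P k y).filter (fun n => (n : ℝ) ≤ x ∧ ∀ i < k, T5^[i] n ≠ y)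

lemma mem_H {k y n : ℕ} {x : ℝ} :
    n ∈ H k y x ↔ T5^[k] n = y ∧ (n : ℝ) ≤ x ∧ ∀ i < k, T5^[i] n ≠ y := by
  classical
  simp [H, mem_P]

lemma iter_zero (k : ℕ) : T5^[k] 0 = 0 := by
  induction k with
  | zero => rfl
  | succ k ih => rw [Function.iterate_succ_apply', ih]; rfl

lemma pos_of_iter {k y n : ℕ} (hy : 1 ≤ y) (h : T5^[k] n = y) : 1 ≤ n := by
  rcases Nat.eq_zero_or_pos n with h0 | h0
  · subst h0; rw [iter_zero] at h; omega
  · exact h0

/-- The constant which comes from the small numbers. -/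
noncomputable def CM : ℝ := (6 / 5) ^ 1000

lemma CM_pos : 0 < CM := by unfold CM; positivity

lemma odds_large {k y n : ℕ} {x : ℝ} (hy : 1 ≤ y) (hn : n ∈ H k y x) :
    (2 : ℝ) ^ k * y ≤ 5 ^ odds k n * (x * CM * (5001 / 5000) ^ k) := by
  rw [mem_H] at hn
  obtain ⟨h1, h2, h3⟩ := hn
  have hn1 := pos_of_iter hy h1
  have h4 := size_le hn1 k
  rw [h1] at h4
  have h5 : (6 / 5 : ℝ) ^ small k n ≤ CM := by
    unfold CM
    exact pow_le_pow_right₀ (by norm_num) (small_le h1 h3)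
  have hn0 : (0 : ℝ) < n := by exact_mod_cast hn1
  have hC := CM_pos
  have hx0 : 0 ≤ x := hn0.le.trans h2
  calc (2 : ℝ) ^ k * y ≤ 5 ^ odds k n * n * (6 / 5) ^ small k n * (5001 / 5000) ^ k := h4
    _ ≤ 5 ^ odds k n * x * CM * (5001 / 5000) ^ k := by gcongr
    _ = _ := by ring

lemma weight_large {k y n : ℕ} {x : ℝ} (hy : 1 ≤ y) (hx : 0 < x) (hn : n ∈ H k y x) :
    ((2 : ℝ) ^ k * y / (x * CM * (5001 / 5000) ^ k)) ^ (1 / 11 : ℝ) ≤ (1158 / 1000 : ℝ) ^ odds k n := by
  have hC := CM_pos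
  have h1 := odds_large hy hn
  have h2 : (2 : ℝ) ^ k * y / (x * CM * (5001 / 5000) ^ k) ≤ 5 ^ odds k n := by
    rw [div_le_iff₀ (by positivity)]
    exact h1
  have h3 : (5 : ℝ) ^ (1 / 11 : ℝ) ≤ 1158 / 1000 := by
    calc (5 : ℝ) ^ (1 / 11 : ℝ) ≤ ((1158 / 1000 : ℝ) ^ 11) ^ (1 / 11 : ℝ) := by
          apply Real.rpow_le_rpow (by norm_num) (by norm_num) (by norm_num)
      _ = 1158 / 1000 := by
          have := Real.pow_rpow_inv_natCast (x := (1158 / 1000 : ℝ)) (n := 11) (by norm_num) (by norm_num)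
          rw [← this]
          norm_num
  calc ((2 : ℝ) ^ k * y / (x * CM * (5001 / 5000) ^ k)) ^ (1 / 11 : ℝ)
      ≤ ((5 : ℝ) ^ odds k n) ^ (1 / 11 : ℝ) := Real.rpow_le_rpow (by positivity) h2 (by norm_num)
    _ = ((5 : ℝ) ^ (1 / 11 : ℝ)) ^ odds k n := by
        rw [← Real.rpow_natCast, ← Real.rpow_mul (by norm_num), mul_comm, Real.rpow_mul (by norm_num),
          Real.rpow_natCast]
    _ ≤ _ := by gcongr

/-- The bound for the first visits, from a bound for the weighted count. -/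
theorem card_H {C1 : ℝ} (hC1 : 0 ≤ C1) (hW : ∀ k y : ℕ, W (1158 / 1000) k y ≤ C1 * (12502 / 10000 : ℝ) ^ k)
    {k y : ℕ} {x : ℝ} (hy : 1 ≤ y) (hx : 0 < x) :
    ((H k y x).card : ℝ) ≤ C1 * CM ^ (1 / 11 : ℝ) * (x / y) ^ (1 / 11 : ℝ) * (1174 / 1000) ^ k := by
  have hC := CM_pos
  have hyR : (0 : ℝ) < y := by exact_mod_cast hy
  set T : ℝ := ((2 : ℝ) ^ k * y / (x * CM * (5001 / 5000) ^ k)) ^ (1 / 11 : ℝ) with hT
  have hTpos : 0 < T := by rw [hT]; positivity
  have h1 : ((H k y x).card : ℝ) * T ≤ C1 * (12502 / 10000 : ℝ) ^ k := by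
    calc ((H k y x).card : ℝ) * T = ∑ n ∈ H k y x, T := by simp
      _ ≤ ∑ n ∈ H k y x, (1158 / 1000 : ℝ) ^ odds k n :=
          Finset.sum_le_sum fun n hn => weight_large hy hx hn
      _ ≤ ∑ n ∈ P k y, (1158 / 1000 : ℝ) ^ odds k n := by
          apply Finset.sum_le_sum_of_subset_of_nonneg
          · intro n hn
            rw [mem_H] at hn
            rw [mem_P]
            exact hn.1
          · intro n _ _; positivity
      _ = W (1158 / 1000) k y := sum_P _ _ _
      _ ≤ _ := hW k y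
  have hq : (12502 / 10000 : ℝ) ^ k ≤
      CM ^ (1 / 11 : ℝ) * (x / y) ^ (1 / 11 : ℝ) * (1174 / 1000) ^ k * T := by
    have e1 : CM ^ (1 / 11 : ℝ) * (x / y) ^ (1 / 11 : ℝ) * T = ((2 / (5001 / 5000)) ^ k : ℝ) ^ (1 / 11 : ℝ) := by
      rw [hT, ← Real.mul_rpow (by positivity) (by positivity), ← Real.mul_rpow (by positivity) (by positivity)]
      congr 1
      have hQ : (0 : ℝ) < (5001 / 5000) ^ k := by positivity
      rw [div_pow (2 : ℝ) (5001 / 5000) k]
      generalize (5001 / 5000 : ℝ) ^ k = Q at hQ ⊢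
      field_simp
    have e2 : CM ^ (1 / 11 : ℝ) * (x / y) ^ (1 / 11 : ℝ) * (1174 / 1000) ^ k * T =
        ((2 / (5001 / 5000) : ℝ) ^ (1 / 11 : ℝ) * (1174 / 1000)) ^ k := by
      calc _ = (CM ^ (1 / 11 : ℝ) * (x / y) ^ (1 / 11 : ℝ) * T) * (1174 / 1000) ^ k := by ring
        _ = ((2 / (5001 / 5000)) ^ k : ℝ) ^ (1 / 11 : ℝ) * (1174 / 1000) ^ k := by rw [e1]
        _ = _ := by
          rw [mul_pow]
          congr 1
          rw [← Real.rpow_natCast, ← Real.rpow_natCast, ← Real.rpow_mul (by norm_num),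
            ← Real.rpow_mul (by norm_num), mul_comm]
    rw [e2]
    apply pow_le_pow_left₀ (by norm_num)
    have h2 : (12502 / 10000 / (1174 / 1000) : ℝ) ≤ (2 / (5001 / 5000) : ℝ) ^ (1 / 11 : ℝ) := by
      calc (12502 / 10000 / (1174 / 1000) : ℝ)
          = ((12502 / 10000 / (1174 / 1000) : ℝ) ^ 11) ^ (1 / 11 : ℝ) := by
            have := Real.pow_rpow_inv_natCast (x := (12502 / 10000 / (1174 / 1000) : ℝ)) (n := 11)
              (by norm_num) (by norm_num)
            rw [← this]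
            norm_num
        _ ≤ _ := Real.rpow_le_rpow (by norm_num) (by norm_num) (by norm_num)
    rw [div_le_iff₀ (by norm_num)] at h2
    exact h2
  have h3 : ((H k y x).card : ℝ) * T ≤
      (C1 * CM ^ (1 / 11 : ℝ) * (x / y) ^ (1 / 11 : ℝ) * (1174 / 1000) ^ k) * T := by
    calc _ ≤ C1 * (12502 / 10000 : ℝ) ^ k := h1
      _ ≤ C1 * (CM ^ (1 / 11 : ℝ) * (x / y) ^ (1 / 11 : ℝ) * (1174 / 1000) ^ k * T) := by gcongr
      _ = _ := by ring
  exact le_of_mul_le_mul_right h3 hTpos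

lemma geom_le {r : ℝ} (hr : 1 < r) (K : ℕ) :
    ∑ k ∈ Finset.range (K + 1), r ^ k ≤ r / (r - 1) * r ^ K := by
  have h : 0 < r - 1 := by linarith
  rw [geom_sum_eq (by linarith), div_mul_eq_mul_div, div_le_div_iff_of_pos_right h, pow_succ]
  linarith

/-- The time-limited bound. -/
theorem timed {C1 : ℝ} (hC1 : 0 ≤ C1) (hW : ∀ k y : ℕ, W (1158 / 1000) k y ≤ C1 * (12502 / 10000 : ℝ) ^ k) :
    ∃ C : ℝ, 0 ≤ C ∧ ∀ y : ℕ, 1 ≤ y → ∀ x : ℝ, 0 < x → ∀ K : ℕ,
      ({n : ℕ | (n : ℝ) ≤ x ∧ ∃ k ≤ K, T5^[k] n = y}.ncard : ℝ) ≤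
        C * (x / y) ^ (1 / 11 : ℝ) * 1.174 ^ K := by
  classical
  have hC := CM_pos
  refine ⟨C1 * CM ^ (1 / 11 : ℝ) * (1174 / 1000 / (1174 / 1000 - 1)), by positivity, ?_⟩
  intro y hy x hx K
  have hsub : {n : ℕ | (n : ℝ) ≤ x ∧ ∃ k ≤ K, T5^[k] n = y} ⊆
      ((Finset.range (K + 1)).biUnion fun k => H k y x : Finset ℕ) := by
    rintro n ⟨h1, h2⟩
    obtain ⟨k, hk, hk2⟩ := h2
    have hex : ∃ k, T5^[k] n = y := ⟨k, hk2⟩
    rw [Finset.coe_biUnion]
    simp only [Set.mem_iUnion, Finset.mem_coe, Finset.mem_range]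
    refine ⟨Nat.find hex, ?_, ?_⟩
    · have := Nat.find_le (h := hex) hk2
      omega
    · rw [mem_H]
      exact ⟨Nat.find_spec hex, h1, fun i hi => Nat.find_min hex hi⟩
  have hcard : ({n : ℕ | (n : ℝ) ≤ x ∧ ∃ k ≤ K, T5^[k] n = y}.ncard : ℝ) ≤
      ∑ k ∈ Finset.range (K + 1), ((H k y x).card : ℝ) := by
    have h1 := Set.ncard_le_ncard hsub (Finset.finite_toSet _)
    rw [Set.ncard_coe_finset] at h1
    have h2 := h1.trans Finset.card_biUnion_le
    exact_mod_cast h2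
  refine hcard.trans ?_
  calc ∑ k ∈ Finset.range (K + 1), ((H k y x).card : ℝ)
      ≤ ∑ k ∈ Finset.range (K + 1), C1 * CM ^ (1 / 11 : ℝ) * (x / y) ^ (1 / 11 : ℝ) * (1174 / 1000) ^ k :=
        Finset.sum_le_sum fun k _ => card_H hC1 hW hy hx
    _ = C1 * CM ^ (1 / 11 : ℝ) * (x / y) ^ (1 / 11 : ℝ) * ∑ k ∈ Finset.range (K + 1), (1174 / 1000 : ℝ) ^ k := by
        rw [Finset.mul_sum]
    _ ≤ C1 * CM ^ (1 / 11 : ℝ) * (x / y) ^ (1 / 11 : ℝ) *
        (1174 / 1000 / (1174 / 1000 - 1) * (1174 / 1000) ^ K) := by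
        have := geom_le (r := 1174 / 1000) (by norm_num) K
        gcongr
    _ = _ := by
        rw [show (1.174 : ℝ) = 1174 / 1000 by norm_num]
        ring

end Pool.Agent.H90.FX
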