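import Pool.Agent.H90.FX.MainU
import Pool.Agent.H90.FX.Time
import Pool.Agent.H90.FX.TVAll

/-!
# The time-limited count for the `5x+1` map
-/

namespace Pool.Agent.H90.FX

theorem tree_weighted : ∃ C : ℝ, 0 ≤ C ∧ ∀ k y : ℕ, W (1158 / 1000) k y ≤ C * (12502 / 10000) ^ k := by
  have C := ucert_of_chk (K := 8) (by norm_num) (by norm_num) (by norm_num) TV.all
  exact ⟨_, by positivity, upper_all (K := 8) (by norm_num) (by norm_num) C (E := 1158 / 1000)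
    (L := 12502 / 10000) (by norm_num) (by norm_num) (by norm_num) (by norm_num) (by norm_num) (by norm_num)
    (by norm_num)⟩

lemma rpow_level {b g : ℝ} (hb : 1 ≤ b) (hbg : b ≤ (2 : ℝ) ^ g) {a x : ℝ} (hx : 1 ≤ x) {K : ℕ}
    (hK : (K : ℝ) ≤ a * Real.logb 2 x) : b ^ K ≤ x ^ (g * a) := by
  have hx0 : 0 < x := by linarith
  calc b ^ K = b ^ (K : ℝ) := (Real.rpow_natCast b K).symm
    _ ≤ b ^ (a * Real.logb 2 x) := Real.rpow_le_rpow_of_exponent_le hb hK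
    _ ≤ ((2 : ℝ) ^ g) ^ (a * Real.logb 2 x) :=
        Real.rpow_le_rpow (by linarith) hbg ((Nat.cast_nonneg K).trans hK)
    _ = ((2 : ℝ) ^ Real.logb 2 x) ^ (g * a) := by
        rw [← Real.rpow_mul (by norm_num), ← Real.rpow_mul (by norm_num)]
        congr 1
        ring
    _ = x ^ (g * a) := by rw [Real.rpow_logb (by norm_num) (by norm_num) hx0]

lemma two_rpow {b : ℝ} {p q : ℕ} (hq : q ≠ 0) (h : b ^ q ≤ (2 : ℝ) ^ p) :
    b ≤ (2 : ℝ) ^ ((p : ℝ) / q) := by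
  apply le_of_pow_le_pow_left₀ hq (by positivity)
  rw [← Real.rpow_natCast ((2 : ℝ) ^ ((p : ℝ) / q)) q, ← Real.rpow_mul (by norm_num),
    div_mul_cancel₀ _ (by exact_mod_cast hq), Real.rpow_natCast]
  exact h

theorem timed_upper : ∃ C : ℝ, ∀ y : ℕ, 1 ≤ y →
    (∀ x : ℝ, 0 < x → ∀ K : ℕ, ({n : ℕ | (n : ℝ) ≤ x ∧ ∃ k ≤ K, T5^[k] n = y}.ncard : ℝ) ≤
      C * min (1.2053 ^ K) ((x / y) ^ (1 / 11 : ℝ) * 1.174 ^ K)) ∧
    (∀ a : ℝ, 0 ≤ a → ∀ x : ℝ, 1 ≤ x →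
      ({n : ℕ | (n : ℝ) ≤ x ∧ ∃ k : ℕ, (k : ℝ) ≤ a * Real.logb 2 x ∧ T5^[k] n = y}.ncard : ℝ) ≤
        C * x ^ min (0.27 * a) (1 / 11 + 0.2315 * a)) := by
  classical
  obtain ⟨C, hC, hU⟩ := tree_upper
  obtain ⟨C1, hC1, hV⟩ := tree_weighted
  obtain ⟨C2, hC2, hT⟩ := timed hC1 hV
  set M := max (C * (1.2053 / (1.2053 - 1))) C2 with hM
  have hM1 : C * (1.2053 / (1.2053 - 1)) ≤ M := le_max_left _ _
  have hM2 : C2 ≤ M := le_max_right _ _
  have hM0 : 0 ≤ M := hC2.trans hM2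
  have first : ∀ y : ℕ, ∀ x : ℝ, ∀ K : ℕ,
      ({n : ℕ | (n : ℝ) ≤ x ∧ ∃ k ≤ K, T5^[k] n = y}.ncard : ℝ) ≤ M * 1.2053 ^ K := by
    intro y x K
    have hsub : {n : ℕ | (n : ℝ) ≤ x ∧ ∃ k ≤ K, T5^[k] n = y} ⊆
        ((Finset.range (K + 1)).biUnion fun k => P k y : Finset ℕ) := by
      rintro n ⟨_, k, hk, hk2⟩
      rw [Finset.coe_biUnion]
      simp only [Set.mem_iUnion, Finset.mem_coe, Finset.mem_range]
      exact ⟨k, by omega, (mem_P k y n).2 hk2⟩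
    have h1 := Set.ncard_le_ncard hsub (Finset.finite_toSet _)
    rw [Set.ncard_coe_finset] at h1
    have h2 : ({n : ℕ | (n : ℝ) ≤ x ∧ ∃ k ≤ K, T5^[k] n = y}.ncard : ℝ) ≤
        ∑ k ∈ Finset.range (K + 1), ((P k y).card : ℝ) := by
      exact_mod_cast h1.trans Finset.card_biUnion_le
    calc _ ≤ ∑ k ∈ Finset.range (K + 1), ((P k y).card : ℝ) := h2
      _ ≤ ∑ k ∈ Finset.range (K + 1), C * 1.2053 ^ k :=
        Finset.sum_le_sum fun k _ => by rw [card_P]; exact hU k y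
      _ = C * ∑ k ∈ Finset.range (K + 1), (1.2053 : ℝ) ^ k := by rw [Finset.mul_sum]
      _ ≤ C * (1.2053 / (1.2053 - 1) * 1.2053 ^ K) := by
        have := geom_le (r := 1.2053) (by norm_num) K
        gcongr
      _ = C * (1.2053 / (1.2053 - 1)) * 1.2053 ^ K := by ring
      _ ≤ M * 1.2053 ^ K := by gcongr
  have second : ∀ y : ℕ, 1 ≤ y → ∀ x : ℝ, 0 < x → ∀ K : ℕ,
      ({n : ℕ | (n : ℝ) ≤ x ∧ ∃ k ≤ K, T5^[k] n = y}.ncard : ℝ) ≤
        M * ((x / y) ^ (1 / 11 : ℝ) * 1.174 ^ K) := by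
    intro y hy x hx K
    have hyR : (0 : ℝ) < y := by exact_mod_cast hy
    refine (hT y hy x hx K).trans ?_
    rw [mul_assoc]
    gcongr
  refine ⟨M, fun y hy => ⟨?_, ?_⟩⟩
  · intro x hx K
    rcases min_choice ((1.2053 : ℝ) ^ K) ((x / y) ^ (1 / 11 : ℝ) * 1.174 ^ K) with h | h
    · rw [h]; exact first y x K
    · rw [h]; exact second y hy x hx K
  · intro a ha x hx
    have hx0 : 0 < x := by linarith
    have hyR : (1 : ℝ) ≤ y := by exact_mod_cast hy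
    have hlog : 0 ≤ a * Real.logb 2 x := mul_nonneg ha (Real.logb_nonneg (by norm_num) hx)
    set K : ℕ := ⌊a * Real.logb 2 x⌋₊ with hK
    have hKle : (K : ℝ) ≤ a * Real.logb 2 x := Nat.floor_le hlog
    have hset : {n : ℕ | (n : ℝ) ≤ x ∧ ∃ k : ℕ, (k : ℝ) ≤ a * Real.logb 2 x ∧ T5^[k] n = y} =
        {n : ℕ | (n : ℝ) ≤ x ∧ ∃ k ≤ K, T5^[k] n = y} := by
      ext n
      simp only [Set.mem_ofPred_eq]
      constructor
      · rintro ⟨h1, k, h2, h3⟩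
        exact ⟨h1, k, Nat.le_floor h2, h3⟩
      · rintro ⟨h1, k, h2, h3⟩
        exact ⟨h1, k, le_trans (by exact_mod_cast h2) hKle, h3⟩
    rw [hset]
    rcases min_choice (0.27 * a) (1 / 11 + 0.2315 * a) with h | h
    · rw [h]
      have h3 : (1.2053 : ℝ) ^ K ≤ x ^ (0.27 * a) := by
        refine rpow_level (by norm_num) ?_ hx hKle
        have := two_rpow (b := 1.2053) (p := 27) (q := 100) (by norm_num) (by norm_num)
        refine this.trans (le_of_eq ?_)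
        norm_num
      refine (first y x K).trans ?_
      gcongr
    · rw [h]
      have h3 : (1.174 : ℝ) ^ K ≤ x ^ (0.2315 * a) := by
        refine rpow_level (by norm_num) ?_ hx hKle
        have := two_rpow (b := 1.174) (p := 25) (q := 108) (by norm_num) (by norm_num)
        refine this.trans ?_
        exact Real.rpow_le_rpow_of_exponent_le (by norm_num) (by norm_num)
      have h4 : (x / y) ^ (1 / 11 : ℝ) ≤ x ^ (1 / 11 : ℝ) := by
        apply Real.rpow_le_rpow (by positivity) _ (by norm_num)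
        exact div_le_self hx0.le hyR
      calc _ ≤ M * ((x / y) ^ (1 / 11 : ℝ) * 1.174 ^ K) := second y hy x hx0 K
        _ ≤ M * (x ^ (1 / 11 : ℝ) * x ^ (0.2315 * a)) := by gcongr
        _ = _ := by rw [← Real.rpow_add hx0]

end Pool.Agent.H90.FX
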