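import Pool.Agent.H90.FX.TU

namespace Pool.Agent.H90.FX.TU

open Pool.Agent.H95.FiveX

theorem chk_16 : chk2 F 5 16 = true := by decide +kernel
theorem chk_17 : chk2 F 5 17 = true := by decide +kernel
theorem chk_18 : chk2 F 5 18 = true := by decide +kernel
theorem chk_19 : chk2 F 5 19 = true := by decide +kernel
theorem chk_20 : chk2 F 5 20 = true := by decide +kernel
theorem chk_21 : chk2 F 5 21 = true := by decide +kernel
theorem chk_22 : chk2 F 5 22 = true := by decide +kernel
theorem chk_23 : chk2 F 5 23 = true := by decide +kernel
theorem chk_24 : chk2 F 5 24 = true := by decide +kernel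
theorem chk_25 : chk2 F 5 25 = true := by decide +kernel
theorem chk_26 : chk2 F 5 26 = true := by decide +kernel
theorem chk_27 : chk2 F 5 27 = true := by decide +kernel
theorem chk_28 : chk2 F 5 28 = true := by decide +kernel
theorem chk_29 : chk2 F 5 29 = true := by decide +kernel
theorem chk_30 : chk2 F 5 30 = true := by decide +kernel
theorem chk_31 : chk2 F 5 31 = true := by decide +kernel

end Pool.Agent.H90.FX.TU
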