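import Pool.Agent.H90.FX.TU

namespace Pool.Agent.H90.FX.TU

open Pool.Agent.H95.FiveX

theorem chk_48 : chk2 F 5 48 = true := by decide +kernel
theorem chk_49 : chk2 F 5 49 = true := by decide +kernel
theorem chk_50 : chk2 F 5 50 = true := by decide +kernel
theorem chk_51 : chk2 F 5 51 = true := by decide +kernel
theorem chk_52 : chk2 F 5 52 = true := by decide +kernel
theorem chk_53 : chk2 F 5 53 = true := by decide +kernel
theorem chk_54 : chk2 F 5 54 = true := by decide +kernel
theorem chk_55 : chk2 F 5 55 = true := by decide +kernel
theorem chk_56 : chk2 F 5 56 = true := by decide +kernel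
theorem chk_57 : chk2 F 5 57 = true := by decide +kernel
theorem chk_58 : chk2 F 5 58 = true := by decide +kernel
theorem chk_59 : chk2 F 5 59 = true := by decide +kernel
theorem chk_60 : chk2 F 5 60 = true := by decide +kernel
theorem chk_61 : chk2 F 5 61 = true := by decide +kernel
theorem chk_62 : chk2 F 5 62 = true := by decide +kernel
theorem chk_63 : chk2 F 5 63 = true := by decide +kernel

end Pool.Agent.H90.FX.TU
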