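import Pool.Agent.H90.FX.TURun0
import Pool.Agent.H90.FX.TURun1
import Pool.Agent.H90.FX.TURun2
import Pool.Agent.H90.FX.TURun3
import Pool.Agent.H90.FX.TURun4
import Pool.Agent.H90.FX.TURun5
import Pool.Agent.H90.FX.TURun6
import Pool.Agent.H90.FX.TURun7
import Pool.Agent.H95.FiveX.Check

/-!
# All blocks of the check
-/

namespace Pool.Agent.H90.FX.TU

open Pool.Agent.H95.FiveX

theorem blocks (q : ℕ) (hq : q < 125) : chk2 F 5 q = true := by
  interval_cases q
  · exact chk_0
  · exact chk_1
  · exact chk_2
  · exact chk_3
  · exact chk_4
  · exact chk_5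
  · exact chk_6
  · exact chk_7
  · exact chk_8
  · exact chk_9
  · exact chk_10
  · exact chk_11
  · exact chk_12
  · exact chk_13
  · exact chk_14
  · exact chk_15
  · exact chk_16
  · exact chk_17
  · exact chk_18
  · exact chk_19
  · exact chk_20
  · exact chk_21
  · exact chk_22
  · exact chk_23
  · exact chk_24
  · exact chk_25
  · exact chk_26
  · exact chk_27
  · exact chk_28
  · exact chk_29
  · exact chk_30
  · exact chk_31
  · exact chk_32
  · exact chk_33
  · exact chk_34
  · exact chk_35
  · exact chk_36
  · exact chk_37
  · exact chk_38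
  · exact chk_39
  · exact chk_40
  · exact chk_41
  · exact chk_42
  · exact chk_43
  · exact chk_44
  · exact chk_45
  · exact chk_46
  · exact chk_47
  · exact chk_48
  · exact chk_49
  · exact chk_50
  · exact chk_51
  · exact chk_52
  · exact chk_53
  · exact chk_54
  · exact chk_55
  · exact chk_56
  · exact chk_57
  · exact chk_58
  · exact chk_59
  · exact chk_60
  · exact chk_61
  · exact chk_62
  · exact chk_63
  · exact chk_64
  · exact chk_65
  · exact chk_66
  · exact chk_67
  · exact chk_68
  · exact chk_69
  · exact chk_70
  · exact chk_71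
  · exact chk_72
  · exact chk_73
  · exact chk_74
  · exact chk_75
  · exact chk_76
  · exact chk_77
  · exact chk_78
  · exact chk_79
  · exact chk_80
  · exact chk_81
  · exact chk_82
  · exact chk_83
  · exact chk_84
  · exact chk_85
  · exact chk_86
  · exact chk_87
  · exact chk_88
  · exact chk_89
  · exact chk_90
  · exact chk_91
  · exact chk_92
  · exact chk_93
  · exact chk_94
  · exact chk_95
  · exact chk_96
  · exact chk_97
  · exact chk_98
  · exact chk_99
  · exact chk_100
  · exact chk_101
  · exact chk_102
  · exact chk_103
  · exact chk_104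
  · exact chk_105
  · exact chk_106
  · exact chk_107
  · exact chk_108
  · exact chk_109
  · exact chk_110
  · exact chk_111
  · exact chk_112
  · exact chk_113
  · exact chk_114
  · exact chk_115
  · exact chk_116
  · exact chk_117
  · exact chk_118
  · exact chk_119
  · exact chk_120
  · exact chk_121
  · exact chk_122
  · exact chk_123
  · exact chk_124

theorem all : ∀ i, i < 5 ^ 8 → F i = true := by
  apply all_of_blocks F 3 5
  intro q hq
  exact blocks q (by norm_num at hq; exact hq)

end Pool.Agent.H90.FX.TU
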