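import Pool.Agent.H90.FX.Bound
import Pool.Agent.H90.FX.TUAll

/-!
# Upper bound for the levels of the tree of the `5x+1` map
-/

namespace Pool.Agent.H90.FX

lemma ncard_level (k y : ℕ) : ({n : ℕ | T5^[k] n = y}.ncard : ℝ) = W 1 k y := by
  have h : {n : ℕ | T5^[k] n = y} = (P k y : Set ℕ) := by
    ext n; simp [mem_P]
  rw [h, Set.ncard_coe_finset, card_P]

theorem tree_upper : ∃ C : ℝ, 0 ≤ C ∧ ∀ k y : ℕ, W 1 k y ≤ C * 1.2053 ^ k := by
  have C := ucert_of_chk (K := 8) (by norm_num) (by norm_num) (by norm_num) TU.all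
  exact ⟨_, by positivity, upper_all (K := 8) (by norm_num) (by norm_num) C (E := 1) (L := 1.2053)
    (by norm_num) (by norm_num) (by norm_num) (by norm_num) (by norm_num) (by norm_num) (by norm_num)⟩

end Pool.Agent.H90.FX
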