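import Mathlib

/-!
# Preimages under iterates of the `5x+1` map, and their weighted count
-/

namespace Pool.Agent.H90.FX

/-- The `5x+1` map on the natural numbers: `(5n+1)/2` at odd `n`, and `n/2` at even `n`. -/
def T5 (n : ℕ) : ℕ := if n % 2 = 1 then (5 * n + 1) / 2 else n / 2

lemma T5_eq_iff {n y : ℕ} : T5 n = y ↔ n = 2 * y ∨ (y % 5 = 3 ∧ n = (2 * y - 1) / 5) := by
  unfold T5
  split_ifs with h
  · constructor
    · intro h1; right; constructor <;> omega
    · rintro (h1 | ⟨h1, h2⟩)
      · omega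
      · omega
  · constructor
    · intro h1; left; omega
    · rintro (h1 | ⟨h1, h2⟩)
      · omega
      · exfalso; omega

/-- The numbers `n` with `T5^[k] n = y`. -/
def P : ℕ → ℕ → Finset ℕ
  | 0, y => {y}
  | k + 1, y => P k (2 * y) ∪ (if y % 5 = 3 then P k ((2 * y - 1) / 5) else ∅)

lemma mem_P (k : ℕ) : ∀ y n : ℕ, n ∈ P k y ↔ T5^[k] n = y := by
  induction k with
  | zero => intro y n; simp [P]
  | succ k ih =>
    intro y n
    rw [Function.iterate_succ_apply', T5_eq_iff, P, Finset.mem_union, ih]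
    by_cases h : y % 5 = 3
    · simp [h, ih]
    · simp [h]

/-- The number of odd numbers among `n, T5 n, …, T5^[k-1] n`. -/
def odds : ℕ → ℕ → ℕ
  | 0, _ => 0
  | k + 1, n => odds k n + (if (T5^[k] n) % 2 = 1 then 1 else 0)

/-- The weighted count of the preimages. -/
def W (E : ℝ) : ℕ → ℕ → ℝ
  | 0, _ => 1
  | k + 1, y => W E k (2 * y) + (if y % 5 = 3 then E * W E k ((2 * y - 1) / 5) else 0)

lemma W_succ (E : ℝ) (k y : ℕ) : W E (k + 1) y =
    W E k (2 * y) + (if y % 5 = 3 then E * W E k ((2 * y - 1) / 5) else 0) := rfl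

lemma sum_P (E : ℝ) (k : ℕ) : ∀ y : ℕ, ∑ n ∈ P k y, E ^ odds k n = W E k y := by
  induction k with
  | zero => intro y; simp [P, odds, W]
  | succ k ih =>
    intro y
    rw [W_succ, ← ih (2 * y), ← ih ((2 * y - 1) / 5)]
    have h1 : ∑ n ∈ P k (2 * y), E ^ odds (k + 1) n = ∑ n ∈ P k (2 * y), E ^ odds k n := by
      apply Finset.sum_congr rfl
      intro n hn
      rw [mem_P] at hn
      have : ¬ (T5^[k] n) % 2 = 1 := by omega
      simp [odds, this]
    by_cases h : y % 5 = 3
    · have h2 : ∑ n ∈ P k ((2 * y - 1) / 5), E ^ odds (k + 1) n =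
          E * ∑ n ∈ P k ((2 * y - 1) / 5), E ^ odds k n := by
        rw [Finset.mul_sum]
        apply Finset.sum_congr rfl
        intro n hn
        rw [mem_P] at hn
        have : (T5^[k] n) % 2 = 1 := by omega
        simp only [odds, this, if_true]
        rw [pow_succ, mul_comm]
      have hd : Disjoint (P k (2 * y)) (P k ((2 * y - 1) / 5)) := by
        rw [Finset.disjoint_left]
        intro n ha hb
        rw [mem_P] at ha hb
        omega
      rw [P, if_pos h, if_pos h, Finset.sum_union hd, h1, h2]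
    · rw [P, if_neg h, if_neg h, Finset.union_empty, add_zero, h1]

lemma card_P (k y : ℕ) : ((P k y).card : ℝ) = W 1 k y := by
  rw [← sum_P]
  simp

lemma W_nonneg {E : ℝ} (hE : 0 ≤ E) (k : ℕ) : ∀ y, 0 ≤ W E k y := by
  induction k with
  | zero => intro y; simp [W]
  | succ k ih =>
    intro y
    rw [W_succ]
    have := ih (2 * y)
    have h2 := ih ((2 * y - 1) / 5)
    split_ifs <;> positivity

lemma W_step {E : ℝ} {k y : ℕ} (h : y % 5 ≠ 3) : W E (k + 1) y = W E k (2 * y) := by
  rw [W_succ, if_neg h, add_zero]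

lemma W_five {E : ℝ} (k : ℕ) : ∀ {y : ℕ}, y % 5 = 0 → W E k y = 1 := by
  induction k with
  | zero => intro y _; rfl
  | succ k ih =>
    intro y hy
    rw [W_step (by omega)]
    exact ih (by omega)

/-- Four steps at once. -/
lemma W_four {E : ℝ} {k y : ℕ} (h : y % 5 = 3) :
    W E (k + 4) y = W E k (16 * y) + E * (
      if ((2 * y - 1) / 5) % 5 = 0 then 1
      else if ((2 * y - 1) / 5) % 5 = 1 then W E k (8 * ((2 * y - 1) / 5))
      else if ((2 * y - 1) / 5) % 5 = 2 then W E (k + 1) (4 * ((2 * y - 1) / 5))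
      else if ((2 * y - 1) / 5) % 5 = 3 then W E (k + 3) ((2 * y - 1) / 5)
      else W E (k + 2) (2 * ((2 * y - 1) / 5))) := by
  rw [show k + 4 = (k + 3) + 1 by ring, W_succ, if_pos h]
  congr 1
  · rw [show k + 3 = (k + 2) + 1 by ring, W_step (by omega), show k + 2 = (k + 1) + 1 by ring,
      W_step (by omega), W_step (by omega)]
    congr 1
    ring
  · congr 1
    set z := (2 * y - 1) / 5 with hz
    split_ifs with h0 h1 h2 h3
    · exact W_five _ h0
    · rw [show k + 3 = (k + 2) + 1 by ring, W_step (by omega), show k + 2 = (k + 1) + 1 by ring,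
        W_step (by omega), W_step (by omega)]
      congr 1
      ring
    · rw [show k + 3 = (k + 2) + 1 by ring, W_step (by omega), show k + 2 = (k + 1) + 1 by ring,
        W_step (by omega)]
      congr 1
      ring
    · rfl
    · rw [show k + 3 = (k + 2) + 1 by ring, W_step (by omega)]

lemma W_le_pow {E : ℝ} (hE : 0 ≤ E) (k : ℕ) : ∀ y, W E k y ≤ (1 + E) ^ k := by
  induction k with
  | zero => intro y; simp [W]
  | succ k ih =>
    intro y
    rw [W_succ, pow_succ]
    have h1 := ih (2 * y)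
    have h2 := ih ((2 * y - 1) / 5)
    have h3 : 0 ≤ (1 + E) ^ k := by positivity
    split_ifs
    · nlinarith
    · nlinarith

lemma one_le_W {E : ℝ} (hE : 0 ≤ E) (k : ℕ) : ∀ y, 1 ≤ W E k y := by
  induction k with
  | zero => intro y; simp [W]
  | succ k ih =>
    intro y
    rw [W_succ]
    have h1 := ih (2 * y)
    have h2 := W_nonneg hE k ((2 * y - 1) / 5)
    split_ifs
    · nlinarith
    · linarith

lemma W_mono {E F : ℝ} (hE : 0 ≤ E) (hEF : E ≤ F) (k : ℕ) : ∀ y, W E k y ≤ W F k y := by
  induction k with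
  | zero => intro y; simp [W]
  | succ k ih =>
    intro y
    rw [W_succ, W_succ]
    have h1 := ih (2 * y)
    have h2 := ih ((2 * y - 1) / 5)
    have h3 := W_nonneg hE k ((2 * y - 1) / 5)
    split_ifs
    · have : E * W E k ((2 * y - 1) / 5) ≤ F * W F k ((2 * y - 1) / 5) :=
        mul_le_mul hEF h2 h3 (hE.trans hEF)
      linarith
    · linarith

end Pool.Agent.H90.FX
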